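import Pool.Agent.H933.LL.Stm9

/-!
# From local log-log-integrability to the global condition
-/

set_option autoImplicit false

open MeasureTheory Metric
open scoped Real InnerProductSpace ENNReal

namespace Pool.Agent.H734.LL

open Pool.Agent.H933.LL

section

variable {X : Type} [NormedAddCommGroup X] [NormedSpace ℂ X] [CompleteSpace X]

theorem cont_resolvent (T : X →L[ℂ] X) : ContinuousOn (resolvent T) (resolventSet ℂ T) :=
  fun z hz => (spectrum.hasDerivAt_resolvent_const_left hz).continuousAt.continuousWithinAt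

theorem meas_norm (T : X →L[ℂ] X) : Measurable fun z : ℂ => ‖resolvent T z‖ := by
  classical
  have h1 : ∀ z, resolvent T z = Set.piecewise (resolventSet ℂ T) (resolvent T) (fun _ => 0) z := by
    intro z
    by_cases hz : z ∈ resolventSet ℂ T
    · rw [Set.piecewise_eq_of_mem _ _ _ hz]
    · rw [Set.piecewise_eq_of_notMem _ _ _ hz, resolvent]
      exact Ring.inverse_non_unit _ hz
  have h2 : (fun z : ℂ => resolvent T z)
      = Set.piecewise (resolventSet ℂ T) (resolvent T) (fun _ => 0) := funext h1
  have ho : IsOpen (resolventSet ℂ T) := spectrum.isOpen_resolventSet T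
  have h3 : Measurable fun z : ℂ => resolvent T z := by
    rw [h2]
    refine measurable_of_restrict_of_restrict_compl ho.measurableSet ?_ ?_
    · rw [Set.restrict_piecewise]
      exact (continuousOn_iff_continuous_restrict.1 (cont_resolvent T)).measurable
    · rw [Set.restrict_piecewise_compl]
      exact measurable_const
  exact h3.norm

theorem exists_min {α : Type} [DecidableEq α] (Q : α → ℝ) (t : Finset α) (h : ∀ l ∈ t, 1 < Q l) :
    ∃ q : ℝ, 1 < q ∧ ∀ l ∈ t, q ≤ Q l := by
  induction t using Finset.induction_on with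
  | empty => exact ⟨2, by norm_num, fun l hl => absurd hl (Finset.notMem_empty l)⟩
  | insert a t _ ih =>
    obtain ⟨q, h1, h2⟩ := ih fun l hl => h l (Finset.mem_insert_of_mem hl)
    refine ⟨min q (Q a), lt_min h1 (h a (Finset.mem_insert_self a t)), fun l hl => ?_⟩
    rcases Finset.mem_insert.1 hl with rfl | hl
    · exact min_le_right _ _
    · exact (min_le_left _ _).trans (h2 l hl)

theorem rpow_le {x q q' : ℝ} (hx : 0 ≤ x) (hq : 0 ≤ q) (hqq : q ≤ q') : x ^ q ≤ 1 + x ^ q' := by
  by_cases h1 : x ≤ 1
  · have h2 := Real.rpow_le_one hx h1 hq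
    have h3 := Real.rpow_nonneg hx q'
    linarith
  · push Not at h1
    have h2 := Real.rpow_le_rpow_of_exponent_le h1.le hqq
    linarith

end

theorem p_glue5 : P_glue5 := by
  classical
  intro X _ _ _ T h
  set F : ℂ → ℝ := fun z => Real.posLog (Real.posLog ‖resolvent T z‖) with hF
  have hF0 : ∀ z, 0 ≤ F z := fun z => Real.posLog_nonneg
  have hFm : Measurable F := Real.continuous_posLog.measurable.comp
    (Real.continuous_posLog.measurable.comp (meas_norm T))
  have hFc : ContinuousOn F (resolventSet ℂ T) :=
    Real.continuous_posLog.comp_continuousOn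
      (Real.continuous_posLog.comp_continuousOn (cont_resolvent T).norm)
  choose! Q r hQ hr hv hI using h
  obtain ⟨t, ht, hcov⟩ := (spectrum.isCompact (𝕜 := ℂ) T).elim_nhds_subcover (fun l => ball l (r l))
    fun l hl => ball_mem_nhds l (hr l hl)
  obtain ⟨q, hq, hqt⟩ := exists_min Q t fun l hl => hQ l (ht l hl)
  refine ⟨q, hq, ?_, ?_⟩
  · have h1 : spectrum ℂ T ⊆ ⋃ l ∈ t, (spectrum ℂ T ∩ ball l (r l)) := by
      intro z hz
      obtain ⟨l, hl, hzl⟩ := Set.mem_iUnion₂.1 (hcov hz)
      exact Set.mem_iUnion₂.2 ⟨l, hl, hz, hzl⟩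
    refine measure_mono_null h1 ?_
    exact (measure_biUnion_null_iff t.countable_toSet).2 fun l hl => hv l (ht l hl)
  · intro ρ
    have hm : Measurable fun z => F z ^ q := hFm.pow_const q
    have h1 : IntegrableOn (fun z => F z ^ q) (⋃ l ∈ t, ball l (r l)) := by
      rw [integrableOn_finset_iUnion]
      intro l hl
      have h2 : IntegrableOn (fun z => 1 + F z ^ Q l) (ball l (r l)) := by
        refine Integrable.add ?_ (hI l (ht l hl))
        exact (integrable_const_iff.2 (Or.inr (by
          rw [isFiniteMeasure_restrict]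
          exact measure_ball_lt_top.ne)))
      refine Integrable.mono' h2 hm.aestronglyMeasurable (Filter.Eventually.of_forall fun z => ?_)
      rw [Real.norm_of_nonneg (Real.rpow_nonneg (hF0 z) q)]
      exact rpow_le (hF0 z) (by linarith) (hqt l hl)
    have h3 : IntegrableOn (fun z => F z ^ q) (closedBall (0 : ℂ) ρ \ ⋃ l ∈ t, ball l (r l)) := by
      have hK : IsCompact (closedBall (0 : ℂ) ρ \ ⋃ l ∈ t, ball l (r l)) :=
        (isCompact_closedBall 0 ρ).diff (isOpen_biUnion fun l _ => isOpen_ball)
      refine ContinuousOn.integrableOn_compact hK ?_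
      refine (Real.continuous_rpow_const (by linarith)).comp_continuousOn (hFc.mono ?_)
      intro z hz
      by_contra hz'
      exact hz.2 (hcov (show z ∈ spectrum ℂ T from hz'))
    refine (h3.union h1).mono_set ?_
    intro z hz
    by_cases hz' : z ∈ ⋃ l ∈ t, ball l (r l)
    · exact Or.inr hz'
    · exact Or.inl ⟨ball_subset_closedBall hz, hz'⟩

end Pool.Agent.H734.LL
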